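import Mathlib

open Filter Topology Set

namespace Pool.Agent.Results.MP_4d07cf_an.NoSubalgebra

/-- `g` is nowhere Hölder: at every point and for every positive exponent the upper limit of the
Hölder quotients is infinite. -/
def NowhereHolder (g : ℝ → ℝ) : Prop :=
  ∀ x α : ℝ, 0 < α →
    Filter.limsup (fun y => ENNReal.ofReal (|g y - g x| / |y - x| ^ α)) (𝓝[≠] x) = ⊤

/-- The class `A_n`: `f` is `n` times differentiable at every point and its `n`-th derivative is
nowhere Hölder. -/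
def AA (n : ℕ) : Set (ℝ → ℝ) :=
  {f | (∀ k < n, Differentiable ℝ (iteratedDeriv k f)) ∧ NowhereHolder (iteratedDeriv n f)}

/-- Strong `κ`-algebrability: there is a set `X` of `κ` functions such that every nonzero
polynomial without constant term, evaluated at distinct elements of `X`, is nonzero and in `A`. -/
def StronglyAlgebrable (κ : Cardinal) (A : Set (ℝ → ℝ)) : Prop :=
  ∃ X : Set (ℝ → ℝ), Cardinal.mk X = κ ∧
    ∀ (k : ℕ) (P : MvPolynomial (Fin k) ℝ), 1 ≤ k → P ≠ 0 → MvPolynomial.constantCoeff P = 0 →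
      ∀ y : Fin k → (ℝ → ℝ), Function.Injective y → (∀ i, y i ∈ X) →
        MvPolynomial.aeval y P ≠ 0 ∧ MvPolynomial.aeval y P ∈ A

/-- recursive form of being `n` times differentiable -/
def TD : ℕ → (ℝ → ℝ) → Prop
  | 0, _ => True
  | n + 1, f => Differentiable ℝ f ∧ TD n (deriv f)

lemma TD_iff (n : ℕ) : ∀ f, TD n f ↔ ∀ k < n, Differentiable ℝ (iteratedDeriv k f) := by
  induction n with
  | zero => intro f; simp [TD]
  | succ n ih =>
    intro f
    constructor
    · rintro ⟨h1, h2⟩ k hk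
      cases k with
      | zero => rwa [iteratedDeriv_zero]
      | succ k => rw [iteratedDeriv_succ']; exact (ih _).mp h2 k (by omega)
    · intro h
      refine ⟨?_, (ih _).mpr fun k hk => ?_⟩
      · have := h 0 (by omega)
        rwa [iteratedDeriv_zero] at this
      · have := h (k + 1) (by omega)
        rwa [iteratedDeriv_succ'] at this

lemma TD_pred {n : ℕ} : ∀ {f}, TD (n + 1) f → TD n f := by
  induction n with
  | zero => intro f _; trivial
  | succ n ih => rintro f ⟨h1, h2⟩; exact ⟨h1, ih h2⟩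

lemma deriv_mul' {f g : ℝ → ℝ} (hf : Differentiable ℝ f) (hg : Differentiable ℝ g) :
    deriv (f * g) = deriv f * g + f * deriv g := by
  funext x
  exact ((hf x).hasDerivAt.mul (hg x).hasDerivAt).deriv

lemma deriv_add' {f g : ℝ → ℝ} (hf : Differentiable ℝ f) (hg : Differentiable ℝ g) :
    deriv (f + g) = deriv f + deriv g := by
  funext x
  exact ((hf x).hasDerivAt.add (hg x).hasDerivAt).deriv

lemma TD_add {n : ℕ} : ∀ {f g}, TD n f → TD n g → TD n (f + g) := by
  induction n with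
  | zero => intro f g _ _; trivial
  | succ n ih =>
    rintro f g ⟨h1, h2⟩ ⟨h3, h4⟩
    exact ⟨h1.add h3, by rw [deriv_add' h1 h3]; exact ih h2 h4⟩

lemma TD_mul {n : ℕ} : ∀ {f g}, TD n f → TD n g → TD n (f * g) := by
  induction n with
  | zero => intro f g _ _; trivial
  | succ n ih =>
    intro f g hf hg
    refine ⟨hf.1.mul hg.1, ?_⟩
    rw [deriv_mul' hf.1 hg.1]
    exact TD_add (ih hf.2 (TD_pred hg)) (ih (TD_pred hf) hg.2)

lemma itd_add {n : ℕ} : ∀ {f g}, TD n f → TD n g →
    iteratedDeriv n (f + g) = iteratedDeriv n f + iteratedDeriv n g := by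
  induction n with
  | zero => intro f g _ _; simp
  | succ n ih =>
    rintro f g ⟨h1, h2⟩ ⟨h3, h4⟩
    rw [iteratedDeriv_succ', iteratedDeriv_succ', iteratedDeriv_succ', deriv_add' h1 h3, ih h2 h4]

lemma itd_differentiable {n : ℕ} {f : ℝ → ℝ} (hf : TD (n + 1) f) :
    Differentiable ℝ (iteratedDeriv n f) := (TD_iff _ _).mp hf n (by omega)

/-- the top order terms of the Leibniz rule -/
lemma leibniz {n : ℕ} : ∀ {u v}, TD (n + 1) u → TD (n + 1) v →
    ∃ R : ℝ → ℝ, Differentiable ℝ R ∧ iteratedDeriv (n + 1) (u * v) =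
      u * iteratedDeriv (n + 1) v + v * iteratedDeriv (n + 1) u + R := by
  induction n with
  | zero =>
    rintro u v ⟨hu, -⟩ ⟨hv, -⟩
    refine ⟨0, differentiable_const 0, ?_⟩
    rw [zero_add, iteratedDeriv_one, iteratedDeriv_one, iteratedDeriv_one, deriv_mul' hu hv]
    ring
  | succ n ih =>
    intro u v hu hv
    obtain ⟨R₁, hR₁, h1⟩ := ih hu.2 (TD_pred hv)
    obtain ⟨R₂, hR₂, h2⟩ := ih (TD_pred hu) hv.2
    refine ⟨R₁ + R₂ + deriv u * iteratedDeriv (n + 1) v + deriv v * iteratedDeriv (n + 1) u,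
      ?_, ?_⟩
    · exact ((hR₁.add hR₂).add (hu.2.1.mul (itd_differentiable hv))).add
        (hv.2.1.mul (itd_differentiable hu))
    · have e1 : iteratedDeriv (n + 1) (deriv u) = iteratedDeriv (n + 1 + 1) u := by
        rw [iteratedDeriv_succ' (n := n + 1)]
      have e2 : iteratedDeriv (n + 1) (deriv v) = iteratedDeriv (n + 1 + 1) v := by
        rw [iteratedDeriv_succ' (n := n + 1)]
      rw [iteratedDeriv_succ' (n := n + 1), deriv_mul' hu.1 hv.1,
        itd_add (TD_mul hu.2 (TD_pred hv)) (TD_mul (TD_pred hu) hv.2), h1, h2, e1, e2]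
      ring

/-- a derivative is bounded on some interval -/
lemma deriv_bounded {f : ℝ → ℝ} (hf : Differentiable ℝ f) :
    ∃ (x₀ M : ℝ), ∀ᶠ x in 𝓝 x₀, |deriv f x| ≤ M := by
  let q : ℕ → ℝ → ℝ := fun k x => (f (x + 1 / ((k : ℝ) + 1)) - f x) * ((k : ℝ) + 1)
  have hq : ∀ k, Continuous (q k) := fun k => by
    have hc := hf.continuous
    exact ((hc.comp (continuous_id.add continuous_const)).sub hc).mul continuous_const
  have hlim : ∀ x, Tendsto (fun k => q k x) atTop (𝓝 (deriv f x)) := fun x => by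
    have h1 := (hf x).hasDerivAt.tendsto_slope_zero
    have h2 : Tendsto (fun k : ℕ => 1 / ((k : ℝ) + 1)) atTop (𝓝[≠] 0) := by
      rw [tendsto_nhdsWithin_iff]
      refine ⟨tendsto_one_div_add_atTop_nhds_zero_nat, Filter.Eventually.of_forall fun k => ?_⟩
      have : (0 : ℝ) < 1 / ((k : ℝ) + 1) := by positivity
      exact this.ne'
    refine (h1.comp h2).congr fun k => ?_
    simp only [Function.comp_apply, smul_eq_mul, q]
    rw [one_div, inv_inv]; ring
  have hclosed : ∀ m : ℕ, IsClosed {x | ∀ k, |q k x| ≤ m} := fun m => by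
    rw [Set.ofPred_forall]
    exact isClosed_iInter fun k => isClosed_le (hq k).abs continuous_const
  have hcover : ⋃ m : ℕ, {x | ∀ k, |q k x| ≤ (m : ℝ)} = Set.univ := by
    rw [Set.eq_univ_iff_forall]
    intro x
    obtain ⟨C, hC⟩ := (hlim x).abs.bddAbove_range
    obtain ⟨m, hm⟩ := exists_nat_ge C
    rw [Set.mem_iUnion]
    exact ⟨m, fun k => (hC ⟨k, rfl⟩).trans hm⟩
  obtain ⟨m, x₀, hx₀⟩ := nonempty_interior_of_iUnion_of_closed hclosed hcover
  refine ⟨x₀, m, ?_⟩
  filter_upwards [isOpen_interior.mem_nhds hx₀] with x hx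
  have hx' : ∀ k, |q k x| ≤ (m : ℝ) := interior_subset hx
  exact le_of_tendsto' (hlim x).abs hx'

/-- If `g` satisfies a pointwise Lipschitz condition somewhere, it is not nowhere Hölder. -/
lemma not_nowhereHolder {g : ℝ → ℝ} {x₀ C : ℝ}
    (h : ∀ᶠ x in 𝓝 x₀, |g x - g x₀| ≤ C * |x - x₀|) : ¬ NowhereHolder g := by
  intro hg
  have h1 := hg x₀ 1 one_pos
  have h2 : Filter.limsup (fun y => ENNReal.ofReal (|g y - g x₀| / |y - x₀| ^ (1 : ℝ)))
      (𝓝[≠] x₀) ≤ ENNReal.ofReal C := by
    refine Filter.limsup_le_of_le (by isBoundedDefault) ?_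
    have h3 : ∀ᶠ x in 𝓝[≠] x₀, |g x - g x₀| ≤ C * |x - x₀| := h.filter_mono nhdsWithin_le_nhds
    filter_upwards [h3, self_mem_nhdsWithin] with x hx hne
    refine ENNReal.ofReal_le_ofReal ?_
    have hne' : x ≠ x₀ := hne
    have hpos : 0 < |x - x₀| := abs_pos.mpr (sub_ne_zero.mpr hne')
    rw [Real.rpow_one, div_le_iff₀ hpos]
    exact hx
  rw [h1, top_le_iff] at h2
  exact ENNReal.ofReal_ne_top h2

/-- a differentiable function is pointwise Lipschitz at each point -/
lemma lip_of_diff {g : ℝ → ℝ} {x₀ : ℝ} (h : DifferentiableAt ℝ g x₀) :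
    ∃ C, 0 ≤ C ∧ ∀ᶠ x in 𝓝 x₀, |g x - g x₀| ≤ C * |x - x₀| := by
  have h1 := h.hasFDerivAt.isBigO_sub
  obtain ⟨C, hC, h2⟩ := h1.exists_nonneg
  refine ⟨C, hC, ?_⟩
  have h3 := h2.bound
  simpa [Real.norm_eq_abs] using h3

/-- The key lemma. -/
lemma key {n : ℕ} (hn : 1 ≤ n) {y : ℝ → ℝ} (hy : TD n y) :
    ∃ x₀ : ℝ, ¬ NowhereHolder (iteratedDeriv n (y * y - (2 * y x₀) • y)) := by
  obtain ⟨m, rfl⟩ : ∃ m, n = m + 1 := ⟨n - 1, by omega⟩
  obtain ⟨x₀, M, hM⟩ := deriv_bounded (itd_differentiable hy)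
  rw [← iteratedDeriv_succ] at hM
  refine ⟨x₀, ?_⟩
  set c : ℝ := y x₀ with hc
  set u : ℝ → ℝ := fun x => y x - c with hu
  have hdu : deriv u = deriv y := by
    funext x; rw [hu]; simp
  have huD : Differentiable ℝ u := hy.1.sub_const c
  have huTD : TD (m + 1) u := ⟨huD, by rw [hdu]; exact hy.2⟩
  have hitu : iteratedDeriv (m + 1) u = iteratedDeriv (m + 1) y := by
    rw [iteratedDeriv_succ', iteratedDeriv_succ', hdu]
  have hP : iteratedDeriv (m + 1) (y * y - (2 * c) • y) = iteratedDeriv (m + 1) (u * u) := by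
    rw [iteratedDeriv_succ', iteratedDeriv_succ']
    congr 1
    have : y * y - (2 * c) • y = fun x => (u * u) x - c ^ 2 := by
      funext x
      simp only [Pi.sub_apply, Pi.mul_apply, Pi.smul_apply, smul_eq_mul, hu]
      ring
    rw [this]
    funext x
    simp
    rfl
  obtain ⟨R, hR, hL⟩ := leibniz huTD huTD
  rw [hP, hL, hitu]
  obtain ⟨C₁, hC₁, h1⟩ := lip_of_diff (huD x₀)
  obtain ⟨C₂, hC₂, h2⟩ := lip_of_diff (hR x₀)
  refine not_nowhereHolder (x₀ := x₀) (C := 2 * (C₁ * |M|) + C₂) ?_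
  have hux₀ : u x₀ = 0 := by rw [hu]; simp [hc]
  filter_upwards [h1, h2, hM] with x hx1 hx2 hx3
  rw [hux₀, sub_zero] at hx1
  simp only [Pi.add_apply, Pi.mul_apply, hux₀, zero_mul, zero_add]
  set D := iteratedDeriv (m + 1) y x with hD
  have e : u x * D + u x * D + R x - R x₀ = 2 * (u x * D) + (R x - R x₀) := by ring
  rw [e]
  refine (abs_add_le _ _).trans ?_
  rw [abs_mul, abs_mul, abs_two]
  have h3 : |u x| * |D| ≤ (C₁ * |x - x₀|) * |M| := by
    refine mul_le_mul hx1 (hx3.trans (le_abs_self M)) (abs_nonneg _) (by positivity)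
  nlinarith [abs_nonneg (x - x₀)]

/-- For every `n ≥ 1` the set `A_n ∪ {0}` contains no nonzero subalgebra of the algebra of all
real functions on the real line, and `A_n` is not strongly `κ`-algebrable for any cardinal
`κ ≠ 0`. -/
theorem result : ∀ n : ℕ, 1 ≤ n →
    (∀ B : NonUnitalSubalgebra ℝ (ℝ → ℝ), (∀ f ∈ B, f ∈ AA n ∨ f = 0) → B = ⊥) ∧
    ∀ κ : Cardinal, κ ≠ 0 → ¬ StronglyAlgebrable κ (AA n) := by
  intro n hn
  constructor
  · intro B hB
    rw [eq_bot_iff]
    intro y hy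
    rw [NonUnitalAlgebra.mem_bot]
    by_contra hy0
    have hyA : y ∈ AA n := (hB y hy).resolve_right hy0
    obtain ⟨x₀, hx₀⟩ := key hn ((TD_iff _ _).mpr hyA.1)
    have hz : y * y - (2 * y x₀) • y ∈ B := sub_mem (mul_mem hy hy) (SMulMemClass.smul_mem _ hy)
    rcases hB _ hz with h | h
    · exact hx₀ h.2
    · apply hy0
      have h1 : ∀ x, y x * y x - 2 * y x₀ * y x = 0 := fun x => by
        have := congrFun h x
        simpa using this
      have h2 : y x₀ = 0 := by
        have := h1 x₀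
        have h3 : y x₀ * y x₀ = 0 := by linear_combination -this
        exact mul_self_eq_zero.mp h3
      funext x
      have h3 := h1 x
      rw [h2] at h3
      have h4 : y x * y x = 0 := by linear_combination h3
      exact mul_self_eq_zero.mp h4
  · rintro κ hκ ⟨X, hX, h⟩
    have hne : X.Nonempty := by
      rw [Set.nonempty_iff_ne_empty]
      rintro rfl
      apply hκ
      rw [← hX]; simp
    obtain ⟨y, hy⟩ := hne
    have hinj : Function.Injective (fun _ : Fin 1 => y) := fun i j _ => Subsingleton.elim i j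
    have hyA : y ∈ AA n := by
      have := (h 1 (MvPolynomial.X 0) le_rfl (MvPolynomial.X_ne_zero 0) (by simp)
        (fun _ => y) hinj (fun _ => hy)).2
      simpa using this
    obtain ⟨x₀, hx₀⟩ := key hn ((TD_iff _ _).mpr hyA.1)
    have hPne : (MvPolynomial.X 0 * MvPolynomial.X 0 -
        MvPolynomial.C (2 * y x₀) * MvPolynomial.X 0 : MvPolynomial (Fin 1) ℝ) ≠ 0 := by
      intro h0
      have h1 := congrArg (MvPolynomial.eval (fun _ => 2 * y x₀ + 1)) h0
      have h2 := congrArg (MvPolynomial.eval (fun _ => 2 * y x₀ - 1)) h0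
      simp at h1 h2
      nlinarith
    have := (h 1 _ le_rfl hPne (by simp) (fun _ => y) hinj (fun _ => hy)).2
    apply hx₀
    have h3 := this.2
    have h4 : (MvPolynomial.aeval (fun _ : Fin 1 => y)) (MvPolynomial.X 0 * MvPolynomial.X 0 -
        MvPolynomial.C (2 * y x₀) * MvPolynomial.X 0 : MvPolynomial (Fin 1) ℝ) =
        y * y - (2 * y x₀) • y := by
      rw [map_sub, map_mul, map_mul, MvPolynomial.aeval_X, MvPolynomial.aeval_C,
        Algebra.algebraMap_eq_smul_one, smul_mul_assoc, one_mul]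
    rwa [h4] at h3

end Pool.Agent.Results.MP_4d07cf_an.NoSubalgebra
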